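import Pool.Agent.L5helper72.BD.Defs

/-!
# BD DET: few `k` for `n` forces few good positions
-/

set_option autoImplicit false

namespace Pool.Agent.L5helper82.BD

open Finset Pool.Agent.L5helper72.BD

theorem DET_holds : St_DET := by
  classical
  intro A C θ z J F m n hA hθ hzF hF hBig
  set P := primorial z with hPdef
  have hP : 0 < P := primorial_pos z
  set t := n / P with ht
  have hn : P * t + n % P = n := Nat.div_add_mod n P
  have hr : n % P < P := Nat.mod_lt n hP
  set S := (Ioc z F).filter Nat.Prime with hS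
  set G : Finset ℕ := {j ∈ range J | Good P S (t + j)} with hG
  have hexp : ∀ j, P * (t + j + 1) = P * t + P * j + P := by intro j; ring
  have hf : ∀ j ∈ G, P * (t + j + 1) + 1 - n ∈ Big A C θ n := by
    intro j hj
    rw [hG, mem_filter, mem_range] at hj
    obtain ⟨hjJ, hgood⟩ := hj
    have h1 := hexp j
    have h0 : 0 ≤ P * j := Nat.zero_le _
    have h2 : n + (P * (t + j + 1) + 1 - n) = P * (t + j + 1) + 1 := by
      omega
    have hk1 : 1 ≤ P * (t + j + 1) + 1 - n := by omega
    have hkle : P * (t + j + 1) + 1 - n ≤ P * (J + 1) := by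
      have h3 : P * (j + 1) ≤ P * J := Nat.mul_le_mul_left P (by omega)
      have h4 : P * (j + 1) = P * j + P := by ring
      have h5 : P * (J + 1) = P * J + P := by ring
      omega
    refine ⟨hk1, ?_⟩
    rw [h2]
    have hN2 : P * (t + j + 1) + 1 ≠ 1 := by
      have : 0 < P * (t + j + 1) := Nat.mul_pos hP (Nat.succ_pos _)
      omega
    have hp := Nat.minFac_prime hN2
    have hpd := Nat.minFac_dvd (P * (t + j + 1) + 1)
    set p := (P * (t + j + 1) + 1).minFac with hpdef
    have hpz : z < p := by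
      by_contra hle
      push Not at hle
      have h3 : p ∣ P := hp.dvd_primorial_iff.2 hle
      have h4 : p ∣ 1 := (Nat.dvd_add_right (h3.mul_right (t + j + 1))).1 hpd
      exact hp.one_lt.ne' (Nat.dvd_one.1 h4)
    have hpF : F < p := by
      by_contra hle
      push Not at hle
      have h3 : p ∈ S := by
        rw [hS, mem_filter, mem_Ioc]
        exact ⟨⟨hpz, hle⟩, hp⟩
      exact hgood p h3 hpd
    have h3 : Real.exp (A * ((P * (t + j + 1) + 1 - n : ℕ) : ℝ) ^ θ) ≤
        Real.exp (A * ((P * (J + 1) : ℕ) : ℝ) ^ θ) := by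
      refine Real.exp_le_exp.2 (mul_le_mul_of_nonneg_left ?_ hA.le)
      exact Real.rpow_le_rpow (Nat.cast_nonneg _) (Nat.cast_le.2 hkle) hθ.le
    have h4 : (F : ℝ) < p := Nat.cast_lt.2 hpF
    linarith
  have hinj : Set.InjOn (fun j => P * (t + j + 1) + 1 - n) (G : Set ℕ) := by
    intro i _ j _ hij
    have h0 : P * (t + i + 1) + 1 - n = P * (t + j + 1) + 1 - n := hij
    have h1 := hexp i
    have h2 := hexp j
    have h3 : P * i = P * j := by omega
    exact Nat.eq_of_mul_eq_mul_left hP h3
  have h1 : ((G.image (fun j => P * (t + j + 1) + 1 - n) : Finset ℕ) : Set ℕ) ⊆ Big A C θ n := by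
    intro k hk
    rw [mem_coe, mem_image] at hk
    obtain ⟨j, hj, rfl⟩ := hk
    exact hf j hj
  have h2 := Set.encard_le_encard h1
  rw [Set.encard_coe_eq_coe_finsetCard, card_image_of_injOn hinj] at h2
  have h3 : ((#G : ℕ) : ℕ∞) ≤ m := h2.trans hBig
  have h4 : #G ≤ m := by exact_mod_cast h3
  exact h4

end Pool.Agent.L5helper82.BD
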